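import Pool.Agent.MHP.StmtsC

/-!
# Squad MHP, row CMX (helper50): every formula has the composition property
-/

set_option autoImplicit false

namespace Pool.Agent.MHP.H50

open Pool.Agent.HMT Pool.Agent.MHP

/-- **CMX** -/
theorem cmx (cma : CmaStmt) (cmc : CmcStmt) (cmb : CmbStmt) (cmv : CmvStmt) (cms : CmsStmt)
    (cme : CmeStmt) : CmxStmt := by
  intro a b c φ
  induction φ with
  | eq i j => exact cma.1 _ _ _ i j
  | adj i j => exact cma.2.1 _ _ _ i j
  | mem i k => exact cma.2.2.1 _ _ _ i k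
  | inc i j k => exact cma.2.2.2 _ _ _ i j k
  | card k m r => exact cmc.1 _ _ _ k m r
  | ecard k m r => exact cmc.2 _ _ _ k m r
  | neg φ ih => exact cmb.1 _ _ _ φ ih
  | and φ ψ ih1 ih2 => exact cmb.2 _ _ _ φ ψ ih1 ih2
  | exv φ ih => exact cmv _ _ _ φ ih
  | exs φ ih => exact cms _ _ _ φ ih
  | exe φ ih => exact cme _ _ _ φ ih

end Pool.Agent.MHP.H50
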